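import Pool.Agent.Helper56.HS.Stm

/-!
Project HS, package NEC: the increments of a defect function.
-/

set_option autoImplicit false

namespace Pool.Agent.Helper23.HS

open Pool.Agent.Helper56

open Pool.Agent.Helper35.EM Pool.Agent.Helper56.SA Pool.Agent.Helper56.EM Pool.Agent.Helper56.NL
  Pool.Agent.Helper56.HS Module Submodule Set

/-- algebraic numbers outside a finite dimensional space -/
theorem exists_alg (W : Submodule ℚ ℂ) [FiniteDimensional ℚ W] :
    ∃ α : ℂ, IsAlgebraic ℚ α ∧ α ∉ W := by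
  by_contra hcon
  push Not at hcon
  obtain ⟨p, hp1, hp⟩ := Nat.exists_infinite_primes (finrank ℚ W + 2)
  have hζ : IsPrimitiveRoot (Complex.exp (2 * Real.pi * Complex.I / p)) p :=
    Complex.isPrimitiveRoot_exp p hp.ne_zero
  set ζ : ℂ := Complex.exp (2 * Real.pi * Complex.I / p) with hz
  have hint : IsIntegral ℚ ζ := (hζ.isIntegral hp.pos).tower_top
  have hdeg : (minpoly ℚ ζ).natDegree = p - 1 := by
    rw [← Polynomial.cyclotomic_eq_minpoly_rat hζ hp.pos, Polynomial.natDegree_cyclotomic,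
      Nat.totient_prime hp]
  have hli := linearIndependent_pow (K := ℚ) ζ
  have hmem : ∀ i : Fin (minpoly ℚ ζ).natDegree, ζ ^ (i : ℕ) ∈ W :=
    fun i => hcon _ (hint.isAlgebraic.pow _)
  have hli2 : LinearIndependent ℚ (fun i : Fin (minpoly ℚ ζ).natDegree =>
      (⟨ζ ^ (i : ℕ), hmem i⟩ : W)) := LinearIndependent.of_comp W.subtype hli
  have := hli2.fintype_card_le_finrank
  rw [Fintype.card_fin, hdeg] at this
  omega

theorem td_eq (hT : S_TRD) (F : NL.ExpField) {n : ℕ} (z : Fin n → ℂ) :
    ∃ r : ℕ, M.eRk (range z ∪ range fun i => F.E (z i)) = r ∧ td F z = r := by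
  have hfin : (range z ∪ range fun i => F.E (z i)).Finite := (finite_range z).union (finite_range _)
  have h1 : M.eRk (range z ∪ range fun i => F.E (z i)) ≠ ⊤ :=
    ne_top_of_le_ne_top hfin.encard_lt_top.ne (M.eRk_le_encard _)
  obtain ⟨r, hr⟩ := ENat.ne_top_iff_exists.1 h1
  refine ⟨r, hr.symm, ?_⟩
  obtain ⟨h2, h3⟩ := hT (range z ∪ range fun i => F.E (z i)) r
  exact le_antisymm (h3.1 hr.ge) (h2.1 hr.le)

/-- Package NEC. -/
theorem nec (hT : S_TRD) : S_NEC := by
  intro F d hLW hd
  have h0 : d 0 = 0 := by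
    obtain ⟨-, z, -, -, hz⟩ := hd 0
    obtain ⟨r, -, hr⟩ := td_eq hT F z
    rw [hr] at hz
    have : (0 : ℕ) = r + d 0 := by exact_mod_cast hz
    omega
  have h1 : d 1 = 0 := by
    obtain ⟨-, z, hzK, hzl, hz⟩ := hd 1
    obtain ⟨r, hr1, hr⟩ := td_eq hT F z
    rw [hr] at hz
    have e : (1 : ℕ) = r + d 1 := by exact_mod_cast hz
    have hr0 : r ≠ 0 := by
      intro hr0
      rw [hr0, Nat.cast_zero] at hr1
      have hsub : (range z ∪ range fun i => F.E (z i)) ⊆ M.closure ∅ := by
        have h2 := (Matroid.eRk_eq_zero_iff (M := M) (subset_univ _)).1 hr1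
        exact h2
      have a1 : IsAlgebraic ℚ (z 0) := mem_cl_empty.1 (hsub (Or.inl ⟨0, rfl⟩))
      have a2 : IsAlgebraic ℚ (F.E (z 0)) := mem_cl_empty.1 (hsub (Or.inr ⟨0, rfl⟩))
      have hai := hLW 1 z (fun i => by rw [Fin.eq_zero i]; exact a1) hzl
      exact hai.transcendental 0 a2
    omega
  refine ⟨h0, h1, fun n => ⟨?_, ?_⟩⟩
  · obtain ⟨-, z, hzK, hzl, hz⟩ := hd n
    obtain ⟨r, hr1, hr⟩ := td_eq hT F z
    rw [hr] at hz
    have e : n = r + d n := by exact_mod_cast hz
    have hfW : FiniteDimensional ℚ (span ℚ (range z)) :=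
      FiniteDimensional.span_of_finite ℚ (finite_range z)
    obtain ⟨α, hα, hαW⟩ := exists_alg (span ℚ (range z))
    have hαK : α ∈ F.K := F.closed α (hα.tower_top F.K)
    have hwl : LinearIndependent ℚ (Fin.cons α z : Fin (n + 1) → ℂ) :=
      linearIndependent_finCons.2 ⟨hzl, hαW⟩
    obtain ⟨r', hr1', hr'⟩ := td_eq hT F (Fin.cons α z : Fin (n + 1) → ℂ)
    have h2 := (hd (n + 1)).1 (Fin.cons α z : Fin (n + 1) → ℂ) (by
      intro i
      refine Fin.cases ?_ (fun j => ?_) i
      · rw [Fin.cons_zero]; exact hαK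
      · rw [Fin.cons_succ]; exact hzK j) hwl
    rw [hr'] at h2
    have e2 : n + 1 ≤ r' + d (n + 1) := by exact_mod_cast h2
    have hrr : r' ≤ r + 1 := by
      have h3 : M.eRk (range (Fin.cons α z : Fin (n + 1) → ℂ) ∪
          range fun i => F.E ((Fin.cons α z : Fin (n + 1) → ℂ) i)) ≤
          M.eRk (range z ∪ range fun i => F.E (z i)) + 1 := by
        calc _ ≤ M.eRk (M.closure (insert (F.E α) (range z ∪ range fun i => F.E (z i)))) := by
              apply M.eRk_mono
              have hsub := M.subset_closure (insert (F.E α) (range z ∪ range fun i => F.E (z i))) (subset_univ _)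
              rintro x (⟨i, rfl⟩ | ⟨i, rfl⟩)
              · refine Fin.cases ?_ (fun j => ?_) i
                · rw [Fin.cons_zero]
                  exact M.closure_subset_closure (empty_subset _) (mem_cl_empty.2 hα)
                · rw [Fin.cons_succ]
                  exact hsub (Or.inr (Or.inl ⟨j, rfl⟩))
              · refine Fin.cases ?_ (fun j => ?_) i
                · simp only [Fin.cons_zero]
                  exact hsub (Or.inl rfl)
                · simp only [Fin.cons_succ]
                  exact hsub (Or.inr (Or.inr ⟨j, rfl⟩))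
          _ = M.eRk (insert (F.E α) (range z ∪ range fun i => F.E (z i))) := M.eRk_closure_eq _
          _ ≤ _ := M.eRk_insert_le_add_one _ _
      rw [hr1, hr1'] at h3
      exact_mod_cast h3
    omega
  · obtain ⟨-, z, hzK, hzl, hz⟩ := hd (n + 1)
    obtain ⟨r, hr1, hr⟩ := td_eq hT F z
    obtain ⟨r', hr1', hr'⟩ := td_eq hT F (fun i : Fin n => z i.succ)
    have hyl : LinearIndependent ℚ (fun i : Fin n => z i.succ) := hzl.comp _ (Fin.succ_injective n)
    have h2 := (hd n).1 (fun i : Fin n => z i.succ) (fun i => hzK _) hyl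
    rw [hr'] at h2
    rw [hr] at hz
    have e : n + 1 = r + d (n + 1) := by exact_mod_cast hz
    have e2 : n ≤ r' + d n := by exact_mod_cast h2
    have hrr : r' ≤ r := by
      have h3 : M.eRk (range (fun i : Fin n => z i.succ) ∪ range fun i : Fin n => F.E (z i.succ)) ≤
          M.eRk (range z ∪ range fun i => F.E (z i)) := by
        apply M.eRk_mono
        rintro x (⟨i, rfl⟩ | ⟨i, rfl⟩)
        · exact Or.inl ⟨_, rfl⟩
        · exact Or.inr ⟨_, rfl⟩
      rw [hr1, hr1'] at h3
      exact_mod_cast h3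
    omega

end Pool.Agent.Helper23.HS
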